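import Pool.Agent.Q66.RX.Stm
import Pool.Agent.Helper69.Dual

/-! JOB OPD of project RX (helper66), MP_c93b6d_al. -/

set_option autoImplicit false

namespace Pool.Agent.Q231.RX.OPD

open Topology Filter Set Pool.Agent.Q66.RX

/-- evaluation at a point is continuous on the dual -/
theorem continuous_ev (G : Type) [CommGroup G] [TopologicalSpace G] [IsTopologicalGroup G]
    (g : G) : Continuous fun χ : PontryaginDual G => χ g := by
  have h : Continuous fun χ : PontryaginDual G => (ContinuousMonoidHom.toContinuousMap χ : C(G, Circle)) :=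
    (ContinuousMonoidHom.isInducing_toContinuousMap G Circle).continuous
  exact (show Continuous fun f : C(G, Circle) => f g from continuous_eval_const g).comp h

/-- the characters which are trivial on `H` -/
def ann {G : Type} [CommGroup G] [TopologicalSpace G] [IsTopologicalGroup G] (H : Subgroup G) :
    Subgroup (PontryaginDual G) where
  carrier := {χ | ∀ h ∈ H, χ h = 1}
  one_mem' := fun _ _ => rfl
  mul_mem' := by
    intro a b ha hb h hh
    show a h * b h = 1
    rw [ha h hh, hb h hh, mul_one]
  inv_mem' := by
    intro a ha h hh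
    show (a h)⁻¹ = 1
    rw [ha h hh, inv_one]

theorem rr_one : rr 1 = 1 := by simp [rr]

theorem ann_eq (hC : S_CIR) {G : Type} [CommGroup G] [TopologicalSpace G] [IsTopologicalGroup G]
    (H : Subgroup G) :
    (ann H : Set (PontryaginDual G)) = {χ : PontryaginDual G | ∀ g ∈ (H : Set G), 0 ≤ rr (χ g)} := by
  ext χ
  constructor
  · intro h g hg
    rw [h g hg, rr_one]
    exact zero_le_one
  · intro h g hg
    by_contra hne
    have hV : ({χ g}ᶜ : Set Circle) ∈ 𝓝 (1 : Circle) :=
      isOpen_compl_singleton.mem_nhds (fun h1 => hne (h1.symm))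
    obtain ⟨n, hn⟩ := hC _ hV
    refine hn (χ g) (fun k _ => ?_) rfl
    rw [← map_pow]
    exact h _ (H.pow_mem hg _)

theorem ann_compact (hP : S_POL) (hC : S_CIR) {G : Type} [CommGroup G] [TopologicalSpace G]
    [IsTopologicalGroup G] (H : Subgroup G) (hH : IsOpen (H : Set G)) : CompactSpace (ann H) := by
  apply isCompact_iff_compactSpace.1
  have h := hP G (H : Set G) (hH.mem_nhds H.one_mem)
  rwa [← ann_eq hC] at h

/-- the evaluations on `ann H` -/
noncomputable def evA {G : Type} [CommGroup G] [TopologicalSpace G] [IsTopologicalGroup G] (H : Subgroup G) :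
    ann H →* (G → Circle) where
  toFun a g := (a : PontryaginDual G) g
  map_one' := rfl
  map_mul' _ _ := rfl

theorem continuous_evA {G : Type} [CommGroup G] [TopologicalSpace G] [IsTopologicalGroup G]
    (H : Subgroup G) : Continuous (evA H) :=
  continuous_pi fun g => (continuous_ev G g).comp continuous_subtype_val

theorem injective_evA {G : Type} [CommGroup G] [TopologicalSpace G] [IsTopologicalGroup G]
    (H : Subgroup G) : Function.Injective (evA H) := by
  intro a b h
  apply Subtype.ext
  apply PontryaginDual.ext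
  intro g
  exact congrFun h g

end Pool.Agent.Q231.RX.OPD

namespace Pool.Agent.Q231.RX

open Topology Filter Set Pool.Agent.Q66.RX

theorem t_OPD (hP : S_POL) (hC : S_CIR) : S_OPD := by
  intro G _ _ _ H hH Φ
  have hcomp := OPD.ann_compact hP hC H hH
  have hind : IsInducing (OPD.evA H) :=
    ((OPD.continuous_evA H).isClosedEmbedding (OPD.injective_evA H)).isInducing
  let ψ : OPD.ann H →ₜ* Circle :=
    ⟨(MonoidHomClass.toMonoidHom Φ).comp (OPD.ann H).subtype,
      (map_continuous Φ).comp continuous_subtype_val⟩
  obtain ⟨h, hh⟩ := Pool.Agent.Helper69.Dual.exists_prod_of_inducing (OPD.evA H) hind ψ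
  refine ⟨h.prod fun g n => g ^ n, fun χ hχ => ?_⟩
  have h1 := hh ⟨χ, hχ⟩
  have h2 : χ (h.prod fun g n => g ^ n) = h.prod fun g n => (χ g) ^ n := by
    rw [Finsupp.prod, map_prod]
    simp only [map_zpow, Finsupp.prod]
  rw [h2]
  exact h1

end Pool.Agent.Q231.RX
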